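import Pool.Agent.TKY.Cls

/-!
# MP_ca1a83_gt: posets with a countably directed coarser order

`fi(P) ∈ Sp_χ(P)` if `P` consists of the compact subsets of a homogeneous metrizable space (or of one
with a centre), or is a `P`-ideal, a Banach lattice, or consists of the neighbourhoods of zero of a
topological vector space with the countable neighbourhood property.
-/

set_option autoImplicit false

namespace Pool.Agent.Results.MP_ca1a83_gt.CoarserOrder

open Cardinal Topology Set TopologicalSpace Pool.Agent.TKY Pointwise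

universe u

/-- `J` is a `P`-ideal of subsets of `ι` -/
def IsPIdeal {ι : Type u} (J : Set (Set ι)) : Prop :=
  (∀ s ∈ J, ∀ t, t ⊆ s → t ∈ J) ∧ (∀ s ∈ J, ∀ t ∈ J, s ∪ t ∈ J) ∧
  ∀ x : ℕ → Set ι, (∀ n, x n ∈ J) → ∃ y ∈ J, ∀ n, (x n \ y).Finite

/-- the neighbourhoods of zero, ordered by reverse inclusion -/
abbrev Nhds0 (E : Type u) [Zero E] [TopologicalSpace E] : Type u := {U : Set E // U ∈ 𝓝 (0 : E)}ᵒᵈ

/-- the countable neighbourhood property -/
def CountableNbhdProperty (E : Type u) [AddCommGroup E] [Module ℝ E] [TopologicalSpace E] : Prop :=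
  ∀ U : ℕ → Set E, (∀ n, U n ∈ 𝓝 (0 : E)) → ∃ V ∈ 𝓝 (0 : E), ∃ k : ℕ → ℕ, ∀ n, 0 < k n ∧
    V ⊆ (k n : ℝ) • U n

theorem ideal {ι : Type u} {J : Set (Set ι)} (hJ : IsPIdeal J) (hι : Countable ι ∨ #ι < fi J)
    (hc : ℵ₀ < cof J) : fi J ∈ Sp J := by
  classical
  obtain ⟨h1, h2, h3⟩ := hJ
  refine mem_of_small
    (fun a b => ⟨⟨a.1 ∪ b.1, h2 _ a.2 _ b.2⟩, subset_union_left, subset_union_right⟩) hc
    (r := fun s t => (s.1 \ t.1).Finite) ?_ ?_ ?_ ?_
  · intro s t hst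
    rw [sdiff_eq_empty.mpr (show s.1 ⊆ t.1 from hst)]
    exact finite_empty
  · intro s t w h4 h5
    refine (h4.union h5).subset fun x hx => ?_
    by_cases hxt : x ∈ t.1
    · exact Or.inr ⟨hxt, hx.2⟩
    · exact Or.inl ⟨hx.1, hxt⟩
  · intro x
    obtain ⟨y, hy, hxy⟩ := h3 (fun n => (x n).1) (fun n => (x n).2)
    exact ⟨⟨y, hy⟩, hxy⟩
  · intro p
    refine ⟨range fun F : {F : Finset ι // p.1 ∪ F ∈ J} => (⟨p.1 ∪ F.1, F.2⟩ : J), ?_, ?_⟩
    · refine (mk_range_le.trans (mk_subtype_le _)).trans_lt ?_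
      have hl := aleph0_lt_fi hc
      rcases finite_or_infinite ι with h | h
      · have : Finite (Finset ι) := inferInstance
        exact (lt_aleph0_of_finite (Finset ι)).trans hl
      · rw [mk_finset_of_infinite]
        rcases hι with h' | h'
        · exact (mk_le_aleph0 (α := ι)).trans_lt hl
        · exact h'
    · intro q hq
      have hq' : (q.1 \ p.1).Finite := hq
      have h6 : p.1 ∪ (hq'.toFinset : Set ι) ∈ J := by
        refine h1 _ (h2 _ p.2 _ q.2) _ ?_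
        rw [Finite.coe_toFinset]
        exact union_subset_union_right _ sdiff_subset
      refine ⟨_, ⟨⟨hq'.toFinset, h6⟩, rfl⟩, ?_⟩
      intro x hx
      by_cases hxp : x ∈ p.1
      · exact Or.inl hxp
      · refine Or.inr ?_
        rw [Finite.coe_toFinset]
        exact ⟨hx, hxp⟩

theorem lattice (E : Type u) [NormedAddCommGroup E] [Lattice E] [HasSolidNorm E]
    [IsOrderedAddMonoid E] [NormedSpace ℝ E] [PosSMulMono ℝ E] [CompleteSpace E]
    (hc : ℵ₀ < cof E) : fi E ∈ Sp E := by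
  refine mem_of_small (fun a b => ⟨a ⊔ b, le_sup_left, le_sup_right⟩) hc
    (r := fun x y => ∃ k : ℕ, x ≤ k • y) ?_ ?_ ?_ ?_
  · intro p q h
    exact ⟨1, by rwa [one_smul]⟩
  · rintro p q s ⟨k, hk⟩ ⟨l, hl⟩
    refine ⟨k * l, ?_⟩
    rw [mul_smul]
    exact hk.trans (nsmul_le_nsmul_right hl k)
  · intro x
    let c : ℕ → ℝ := fun n => (1 / 2) ^ n / (1 + ‖x n‖)
    have hc0 : ∀ n, 0 < c n := fun n => by positivity
    have hsum : Summable fun n => c n • |x n| := by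
      refine Summable.of_norm_bounded (g := fun n : ℕ => (1 / 2 : ℝ) ^ n)
        summable_geometric_two fun n => ?_
      rw [norm_smul, norm_abs_eq_norm, Real.norm_of_nonneg (hc0 n).le]
      have h1 : (0 : ℝ) < 1 + ‖x n‖ := by positivity
      rw [div_mul_eq_mul_div, div_le_iff₀ h1]
      have h2 : (0 : ℝ) < (1 / 2) ^ n := by positivity
      nlinarith [norm_nonneg (x n)]
    have hpos : ∀ n, 0 ≤ c n • |x n| := fun n => smul_nonneg (hc0 n).le (abs_nonneg _)
    have hy : ∀ n, c n • |x n| ≤ ∑' m, c m • |x m| := fun n =>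
      hsum.le_tsum n fun j _ => hpos j
    refine ⟨∑' m, c m • |x m|, fun n => ?_⟩
    obtain ⟨k, hk⟩ := exists_nat_ge (c n)⁻¹
    refine ⟨k, (le_abs_self (x n)).trans ?_⟩
    have h1 : |x n| = (c n)⁻¹ • (c n • |x n|) := by
      rw [smul_smul, inv_mul_cancel₀ (hc0 n).ne', one_smul]
    have h2 : (c n)⁻¹ • (c n • |x n|) ≤ (c n)⁻¹ • ∑' m, c m • |x m| :=
      smul_le_smul_of_nonneg_left (hy n) (inv_pos.mpr (hc0 n)).le
    have h3 : 0 ≤ ((k : ℝ) - (c n)⁻¹) • ∑' m, c m • |x m| :=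
      smul_nonneg (sub_nonneg.mpr hk) ((hpos n).trans (hy n))
    rw [sub_smul, sub_nonneg] at h3
    rw [← Nat.cast_smul_eq_nsmul ℝ k]
    exact (h1.le.trans h2).trans h3
  · intro p
    refine ⟨range fun k : ℕ => k • p, ?_, ?_⟩
    · exact (le_aleph0_iff_set_countable.mpr (countable_range _)).trans_lt (aleph0_lt_fi hc)
    · rintro q ⟨k, hk⟩
      exact ⟨_, ⟨k, rfl⟩, hk⟩

theorem nbhds (E : Type u) [AddCommGroup E] [Module ℝ E] [TopologicalSpace E]
    [IsTopologicalAddGroup E] [ContinuousSMul ℝ E] (hE : CountableNbhdProperty E)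
    (hc : ℵ₀ < cof (Nhds0 E)) : fi (Nhds0 E) ∈ Sp (Nhds0 E) := by
  refine mem_of_small (fun a b => ⟨OrderDual.toDual ⟨(OrderDual.ofDual a).1 ∩ (OrderDual.ofDual b).1,
      Filter.inter_mem (OrderDual.ofDual a).2 (OrderDual.ofDual b).2⟩,
      inter_subset_left, inter_subset_right⟩) hc
    (r := fun U V => ∃ k : ℕ, 0 < k ∧
      (OrderDual.ofDual V).1 ⊆ (k : ℝ) • (OrderDual.ofDual U).1) ?_ ?_ ?_ ?_
  · intro U V h
    refine ⟨1, one_pos, ?_⟩
    rw [Nat.cast_one, one_smul]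
    exact h
  · rintro U V W ⟨k, hk, hkU⟩ ⟨l, hl, hlV⟩
    refine ⟨l * k, Nat.mul_pos hl hk, ?_⟩
    rw [Nat.cast_mul, mul_smul]
    exact hlV.trans (smul_set_mono hkU)
  · intro U
    obtain ⟨V, hV, k, hk⟩ := hE (fun n => (OrderDual.ofDual (U n)).1)
      (fun n => (OrderDual.ofDual (U n)).2)
    exact ⟨OrderDual.toDual ⟨V, hV⟩, fun n => ⟨k n, hk n⟩⟩
  · intro V
    have hmem : ∀ k : ℕ, ((k : ℝ) + 1)⁻¹ • (OrderDual.ofDual V).1 ∈ 𝓝 (0 : E) := by
      intro k
      have h0 : ((k : ℝ) + 1)⁻¹ ≠ 0 := by positivity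
      have := set_smul_mem_nhds_zero_iff (α := E) (s := (OrderDual.ofDual V).1) h0
      exact this.mpr (OrderDual.ofDual V).2
    refine ⟨range fun k : ℕ => (OrderDual.toDual ⟨_, hmem k⟩ : Nhds0 E), ?_, ?_⟩
    · exact (le_aleph0_iff_set_countable.mpr (countable_range _)).trans_lt (aleph0_lt_fi hc)
    · rintro U ⟨k, hk, hkU⟩
      obtain ⟨m, rfl⟩ : ∃ m, k = m + 1 := ⟨k - 1, by omega⟩
      refine ⟨_, ⟨m, rfl⟩, ?_⟩
      change ((m : ℝ) + 1)⁻¹ • (OrderDual.ofDual V).1 ⊆ (OrderDual.ofDual U).1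
      have h0 : ((m : ℝ) + 1) ≠ 0 := by positivity
      rw [Nat.cast_add, Nat.cast_one] at hkU
      rw [← inv_smul_smul₀ h0 (OrderDual.ofDual U).1]
      exact smul_set_mono hkU

theorem result :
    (∀ (X : Type u) [TopologicalSpace X] [MetrizableSpace X], KX.HasCentre X →
      ℵ₀ < cof (Compacts X) → fi (Compacts X) ∈ Sp (Compacts X)) ∧
    (∀ (ι : Type u) (J : Set (Set ι)), IsPIdeal J → Countable ι ∨ #ι < fi J → ℵ₀ < cof J →
      fi J ∈ Sp J) ∧
    (∀ (E : Type u) [NormedAddCommGroup E] [Lattice E] [HasSolidNorm E] [IsOrderedAddMonoid E]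
      [NormedSpace ℝ E] [PosSMulMono ℝ E] [CompleteSpace E], ℵ₀ < cof E → fi E ∈ Sp E) ∧
    ∀ (E : Type u) [AddCommGroup E] [Module ℝ E] [TopologicalSpace E] [IsTopologicalAddGroup E]
      [ContinuousSMul ℝ E], CountableNbhdProperty E → ℵ₀ < cof (Nhds0 E) →
      fi (Nhds0 E) ∈ Sp (Nhds0 E) := by
  refine ⟨?_, ?_, ?_, ?_⟩
  · intro X _ _ hX hc
    exact compacts X hX hc
  · intro ι J hJ hι hc
    exact ideal hJ hι hc
  · intro E _ _ _ _ _ _ _ hc
    exact lattice E hc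
  · intro E _ _ _ _ _ hE hc
    exact nbhds E hE hc

end Pool.Agent.Results.MP_ca1a83_gt.CoarserOrder
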