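import Pool.Agent.TKY.Bnd

/-!
# MP_ca1a83_gt: countable unions of bounded sets, and partition properties of `fi(P)`

Let `λ = fi(P)` and let `κ` be an uncountable cardinal such that for every `μ` of countable
cofinality with `κ ≤ μ < λ` the countable subsets of `μ` are covered by fewer than `λ` sets of size
less than `κ`. If, for some transitive relation `R` containing the order, some set of size at most
`λ` which is not `R`-dominated by a countable set is a countable union of sets whose subsets of size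
less than `κ` have `R`-upper bounds, then `λ ∈ Sp_χ(P)`. This is the case if every colouring of the
pairs of ordinals below `λ` by elements of `ω^ω` is bounded on the subsets of size less than `κ` of a
large set.
-/

set_option autoImplicit false

namespace Pool.Agent.Results.MP_ca1a83_gt.CountableUnions

open Cardinal Set Pool.Agent.TKY

universe u

/-- `r` is a transitive relation containing `≤` -/
def IsCoarse (P : Type u) [PartialOrder P] (r : P → P → Prop) : Prop :=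
  (∀ p q, p ≤ q → r p q) ∧ ∀ p q s, r p q → r q s → r p s

/-- some countable subset of `P` contains an `r`-upper bound of each element of `A` -/
def CountablyDominated {P : Type u} (r : P → P → Prop) (A : Set P) : Prop :=
  ∃ B : Set P, B.Countable ∧ ∀ a ∈ A, ∃ b ∈ B, r a b

/-- every subset of `Y` of size less than `κ` has an `r`-upper bound -/
def KBounded {P : Type u} (r : P → P → Prop) (κ : Cardinal.{u}) (Y : Set P) : Prop :=
  ∀ s ⊆ Y, #s < κ → ∃ p, ∀ x ∈ s, r x p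

/-- every infinite subset of `Y` contains an infinite set which has an `r`-upper bound -/
def SeqBounded {P : Type u} (r : P → P → Prop) (Y : Set P) : Prop :=
  ∀ s ⊆ Y, s.Infinite → ∃ t ⊆ s, t.Infinite ∧ ∃ p, ∀ x ∈ t, r x p

/-- fewer than `lam` subsets of size less than `κ` of a set of size `μ` cover all its countable
subsets -/
def Covered (κ μ lam : Cardinal.{u}) : Prop :=
  ∃ T : Set (Set μ.ord.ToType), #T < lam ∧ (∀ B ∈ T, #B < κ) ∧
    ∀ s : Set μ.ord.ToType, s.Countable → ∃ B ∈ T, s ⊆ B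

variable {P : Type u} [PartialOrder P] {r : P → P → Prop}

/-- the order itself -/
lemma isCoarse_le : IsCoarse P (fun p q : P => p ≤ q) :=
  ⟨fun _ _ h => h, fun _ _ _ h1 h2 => h1.trans h2⟩

/-- fewer than `fi(P)` elements lie below a monotone sequence -/
lemma exists_mono (hd : DirectedPoset P) (hc : ℵ₀ < cof P) {ι : Type u} (p : ι → P)
    (hι : #ι < fi P) : ∃ q : ℕ → P, Monotone q ∧ ∀ i, ∃ n, p i ≤ q n := by
  have h1 : #(range p) < fi P := mk_range_le.trans_lt hι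
  obtain ⟨D, hD, hDd⟩ := fine_of_lt h1 (range p) le_rfl
  obtain ⟨q, hq, hqD⟩ := exists_seq hd (nonempty_of_cof hc) hD
  refine ⟨q, hq, fun i => ?_⟩
  obtain ⟨x, hx, hix⟩ := hDd _ ⟨i, rfl⟩
  obtain ⟨n, hn⟩ := hqD x hx
  exact ⟨n, hix.trans hn⟩

lemma finite_bounded (hd : DirectedPoset P) (hne : Nonempty P) {T : Set P} (hT : T.Finite) :
    ∃ p, ∀ x ∈ T, x ≤ p := by
  induction T, hT using Set.Finite.induction_on with
  | empty =>
    obtain ⟨p⟩ := hne
    exact ⟨p, fun x hx => absurd hx (notMem_empty x)⟩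
  | @insert a s _ _ ih =>
    obtain ⟨p, hp⟩ := ih
    obtain ⟨r, h1, h2⟩ := hd a p
    refine ⟨r, fun x hx => ?_⟩
    rcases hx with rfl | hx
    · exact h1
    · exact (hp x hx).trans h2

/-- above the continuum the weaker condition implies the stronger one -/
lemma kBounded_of_seqBounded (hd : DirectedPoset P) (hc : ℵ₀ < cof P) (hr : IsCoarse P r)
    (h2 : (2 : Cardinal.{u}) ^ (ℵ₀ : Cardinal.{u}) < fi P) {Y : Set P} (hY : SeqBounded r Y) :
    KBounded r (aleph 1) Y := by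
  obtain ⟨hr1, hr2⟩ := hr
  intro s hs hsc
  rw [← Cardinal.countable_iff_lt_aleph_one] at hsc
  let ι : Type u := {t : Set s // ∃ p : P, ∀ x ∈ t, r (x : P) p}
  have hι : #ι < fi P := by
    refine lt_of_le_of_lt ?_ h2
    refine (mk_subtype_le _).trans ?_
    rw [mk_set]
    exact power_le_power_left two_ne_zero (le_aleph0_iff_set_countable.mpr hsc)
  choose b hb using fun t : ι => t.2
  obtain ⟨q, hq, hqb⟩ := exists_mono hd hc b hι
  by_contra hn
  push Not at hn
  choose d hd1 hd2 using fun k => hn (q k)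
  -- a bounded infinite set of values
  have key : ∀ t : Set P, t ⊆ range d → (∃ p, ∀ x ∈ t, r x p) → ∃ n, ∀ x ∈ t, r x (q n) := by
    intro t ht hp
    obtain ⟨p, hp⟩ := hp
    let t' : ι := ⟨{x : s | (x : P) ∈ t}, p, fun x hx => hp _ hx⟩
    obtain ⟨n, hn⟩ := hqb t'
    refine ⟨n, fun x hx => ?_⟩
    obtain ⟨k, rfl⟩ := ht hx
    exact hr2 _ _ _ (hb t' ⟨d k, hd1 k⟩ hx) (hr1 _ _ hn)
  by_cases hT : (range d).Finite
  · obtain ⟨p, hp⟩ := finite_bounded hd (nonempty_of_cof hc) hT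
    obtain ⟨n, hn⟩ := key _ subset_rfl ⟨p, fun x hx => hr1 _ _ (hp x hx)⟩
    exact hd2 n (hn _ ⟨n, rfl⟩)
  · obtain ⟨t, ht, htinf, htp⟩ := hY (range d) (by
      rintro _ ⟨k, rfl⟩
      exact hs (hd1 k)) hT
    obtain ⟨n, hn⟩ := key t ht htp
    obtain ⟨k, hk, hkt⟩ : ∃ k, n ≤ k ∧ d k ∈ t := by
      by_contra hcon
      push Not at hcon
      refine htinf (((finite_Iio n).image d).subset fun x hx => ?_)
      obtain ⟨k, rfl⟩ := ht hx
      refine ⟨k, ?_, rfl⟩
      by_contra hk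
      exact hcon k (not_lt.mp hk) hx
    exact hd2 k (hr2 _ _ _ (hn _ hkt) (hr1 _ _ (hq hk)))

/-- all small subsets of a `κ`-bounded set are bounded -/
lemma small_bounded (hd : DirectedPoset P) (hc : ℵ₀ < cof P) (hr : IsCoarse P r)
    {κ : Cardinal.{u}} (hκ : ℵ₀ < κ)
    (hμ : ∀ μ : Cardinal.{u}, κ ≤ μ → μ < fi P → μ.ord.cof = ℵ₀ → Covered κ μ (fi P))
    {Y : Set P} (hY : KBounded r κ Y) : ∀ μ : Cardinal.{u}, μ < fi P → ∀ D ⊆ Y, #D = μ →
      ∃ p, ∀ x ∈ D, r x p := by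
  obtain ⟨hr1, hr2⟩ := hr
  intro μ
  induction μ using WellFoundedLT.induction with
  | ind μ ih =>
  intro hlt D hDY hD
  rcases lt_or_ge μ κ with h0' | h0'
  · exact hY D hDY (hD.trans_lt h0')
  have h0 : ℵ₀ < μ := hκ.trans_le h0'
  obtain ⟨e⟩ : Nonempty (D ≃ μ.ord.ToType) := by
    rw [← Cardinal.eq, mk_ord_toType]
    exact hD
  rcases eq_or_ne μ.ord.cof ℵ₀ with hcf | hcf
  · -- countable cofinality
    obtain ⟨T, hT, hTk, hTc⟩ := hμ μ h0' hlt hcf
    have hbd : ∀ B : T, ∃ p, ∀ x : D, e x ∈ B.1 → r (x : P) p := by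
      intro B
      have h2 : #(Subtype.val '' (e ⁻¹' B.1) : Set P) < κ := by
        refine mk_image_le.trans_lt (lt_of_le_of_lt ?_ (hTk B.1 B.2))
        exact mk_preimage_of_injective _ _ e.injective
      obtain ⟨p, hp⟩ := hY _ (by
        rintro _ ⟨x, _, rfl⟩
        exact hDY x.2) h2
      exact ⟨p, fun x hx => hp _ ⟨x, hx, rfl⟩⟩
    choose b hb using hbd
    obtain ⟨q, hq, hqb⟩ := exists_mono hd hc b hT
    by_contra hn
    push Not at hn
    choose d hd1 hd2 using fun k => hn (q k)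
    obtain ⟨B, hB, hss⟩ := hTc (range fun k => e ⟨d k, hd1 k⟩) (countable_range _)
    obtain ⟨n, hn'⟩ := hqb ⟨B, hB⟩
    exact hd2 n (hr2 _ _ _ (hb ⟨B, hB⟩ ⟨d n, hd1 n⟩ (hss ⟨n, rfl⟩)) (hr1 _ _ hn'))
  · -- uncountable cofinality
    have hlim : ℵ₀ ≤ μ.ord.cof := by
      rw [Ordinal.aleph0_le_cof]
      exact isSuccLimit_ord h0.le
    have hcf' : ℵ₀ < μ.ord.cof := lt_of_le_of_ne hlim (Ne.symm hcf)
    have hb : ∀ ξ : μ.ord.ToType, ∃ p, ∀ x : D, e x ≤ ξ → r (x : P) p := by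
      intro ξ
      have h1 : #{x : P | ∃ h : x ∈ D, e ⟨x, h⟩ ≤ ξ} ≤ #(Iic ξ) := by
        refine mk_le_of_injective (f := fun x => ⟨e ⟨x.1, x.2.choose⟩, x.2.choose_spec⟩) ?_
        intro x y hxy
        have h3 := e.injective (congrArg Subtype.val hxy)
        exact Subtype.ext (Subtype.mk.inj h3)
      have h2 : #(Iic ξ) < μ := by
        have h3 : ord #μ.ord.ToType = Ordinal.type (fun x y : μ.ord.ToType => x < y) := by
          rw [mk_ord_toType, Ordinal.type_toType]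
        have h4 := mk_Iic_lt ξ h3 (by rw [mk_ord_toType]; exact h0.le)
        rwa [mk_ord_toType] at h4
      obtain ⟨p, hp⟩ := ih _ (h1.trans_lt h2) ((h1.trans_lt h2).trans hlt)
        {x : P | ∃ h : x ∈ D, e ⟨x, h⟩ ≤ ξ} (fun x hx => hDY hx.choose) rfl
      exact ⟨p, fun x hx => hp _ ⟨x.2, hx⟩⟩
    choose b hb using hb
    obtain ⟨q, hq, hqb⟩ := exists_mono hd hc b (by rw [mk_ord_toType]; exact hlt)
    obtain ⟨n, hn⟩ : ∃ n, ∀ ζ : μ.ord.ToType, ∃ ξ, ζ ≤ ξ ∧ b ξ ≤ q n := by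
      by_contra hcon
      push Not at hcon
      choose z hz using hcon
      have h1 : ¬ IsCofinal (range fun n : ULift.{u} ℕ => z n.down) := by
        intro h
        have h2 := Order.cof_le h
        rw [Ordinal.cof_toType] at h2
        have h3 : #(range fun n : ULift.{u} ℕ => z n.down) ≤ ℵ₀ :=
          le_aleph0_iff_set_countable.mpr (countable_range _)
        exact absurd (h2.trans h3) (not_le.mpr hcf')
      obtain ⟨w, hw⟩ : ∃ w, ∀ n, z n < w := by
        by_contra hcon2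
        push Not at hcon2
        refine h1 fun w => ?_
        obtain ⟨n, hn⟩ := hcon2 w
        exact ⟨_, ⟨⟨n⟩, rfl⟩, hn⟩
      obtain ⟨n, hn⟩ := hqb w
      exact hz n w (hw n).le hn
    refine ⟨q n, fun x hx => ?_⟩
    obtain ⟨ξ, h1, h2⟩ := hn (e ⟨x, hx⟩)
    exact hr2 _ _ _ (hb ξ ⟨x, hx⟩ h1) (hr1 _ _ h2)

/-- the case of a countable union -/
lemma of_union (hd : DirectedPoset P) (hc : ℵ₀ < cof P) (hr : IsCoarse P r)
    {κ : Cardinal.{u}} (hκ : ℵ₀ < κ)
    (hμ : ∀ μ : Cardinal.{u}, κ ≤ μ → μ < fi P → μ.ord.cof = ℵ₀ → Covered κ μ (fi P))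
    {A : Set P} (hA : #A ≤ fi P) (hA' : ¬ CountablyDominated r A)
    {F : ℕ → Set P} (hF : A ⊆ ⋃ n, F n) (hF' : ∀ n, KBounded r κ (F n)) : fi P ∈ Sp P := by
  classical
  have hne := nonempty_of_cof hc
  have hl := aleph0_lt_fi hc
  have hreg := isRegular_fi hc
  -- one piece is not dominated
  obtain ⟨n, hn⟩ : ∃ n, ¬ CountablyDominated r (A ∩ F n) := by
    by_contra hcon
    push Not at hcon
    choose B hB hBd using hcon
    refine hA' ⟨⋃ n, B n, countable_iUnion hB, fun a ha => ?_⟩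
    obtain ⟨n, hn⟩ := mem_iUnion.mp (hF ha)
    obtain ⟨b, hb, hab⟩ := hBd n a ⟨ha, hn⟩
    exact ⟨b, mem_iUnion.mpr ⟨n, hb⟩, hab⟩
  set Y : Set P := A ∩ F n with hYdef
  have hY : KBounded r κ Y := fun s hs hsc => hF' n s (hs.trans inter_subset_right) hsc
  have hunb : ¬ ∃ p, ∀ x ∈ Y, r x p := by
    rintro ⟨p, hp⟩
    exact hn ⟨{p}, countable_singleton p, fun a ha => ⟨p, rfl, hp a ha⟩⟩
  have hcard : #Y = fi P := by
    refine le_antisymm ((mk_le_mk_of_subset inter_subset_left).trans hA) ?_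
    by_contra hlt
    rw [not_le] at hlt
    exact hunb (small_bounded hd hc hr hκ hμ hY _ hlt Y subset_rfl rfl)
  obtain ⟨e⟩ : Nonempty (Y ≃ (fi P).ord.ToType) := by
    rw [← Cardinal.eq, mk_ord_toType]
    exact hcard
  have hb : ∀ ξ : (fi P).ord.ToType, ∃ p, ∀ x : Y, e x ≤ ξ → r (x : P) p := by
    intro ξ
    have h1 : #{x : P | ∃ h : x ∈ Y, e ⟨x, h⟩ ≤ ξ} ≤ #(Iic ξ) := by
      refine mk_le_of_injective (f := fun x => ⟨e ⟨x.1, x.2.choose⟩, x.2.choose_spec⟩) ?_
      intro x y hxy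
      have h3 := e.injective (congrArg Subtype.val hxy)
      exact Subtype.ext (Subtype.mk.inj h3)
    have h2 : #(Iic ξ) < fi P := by
      have h3 : ord #(fi P).ord.ToType = Ordinal.type (fun x y : (fi P).ord.ToType => x < y) := by
        rw [mk_ord_toType, Ordinal.type_toType]
      have h4 := mk_Iic_lt ξ h3 (by rw [mk_ord_toType]; exact hl.le)
      rwa [mk_ord_toType] at h4
    obtain ⟨p, hp⟩ := small_bounded hd hc hr hκ hμ hY _ (h1.trans_lt h2)
      {x : P | ∃ h : x ∈ Y, e ⟨x, h⟩ ≤ ξ} (fun x hx => hx.choose) rfl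
    exact ⟨p, fun x hx => hp _ ⟨x.2, hx⟩⟩
  choose b hb using hb
  refine mem_Sp_of_tukey hd hne hl hreg b fun p => ?_
  by_contra hcon
  push Not at hcon
  refine hunb ⟨p, fun x hx => ?_⟩
  obtain ⟨α, h1, h2⟩ := hcon (e ⟨x, hx⟩)
  exact hr.2 _ _ _ (hb α ⟨x, hx⟩ h2.le) (hr.1 _ _ h1)

theorem result (P : Type u) [PartialOrder P] (hd : DirectedPoset P) (hc : ℵ₀ < cof P)
    (h : PartitionProperty (fi P) ∨ ∃ κ : Cardinal.{u}, ℵ₀ < κ ∧
      (∀ μ : Cardinal.{u}, κ ≤ μ → μ < fi P → μ.ord.cof = ℵ₀ → Covered κ μ (fi P)) ∧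
      (BoundedColourings κ (fi P) ∨
        (∃ U : Ultrafilter (fi P).ord.ToType,
          CardinalInterFilter (U : Filter (fi P).ord.ToType) κ ∧ ∀ β, Ioi β ∈ U) ∨
        ∃ (r : P → P → Prop) (A : Set P) (F : ℕ → Set P), IsCoarse P r ∧ #A ≤ fi P ∧
          ¬ CountablyDominated r A ∧ A ⊆ ⋃ n, F n ∧
          ((∀ n, KBounded r κ (F n)) ∨ (κ = aleph 1 ∧
            (2 : Cardinal.{u}) ^ (ℵ₀ : Cardinal.{u}) < fi P ∧ ∀ n, SeqBounded r (F n))))) :
    fi P ∈ Sp P := by
  have hle := isCoarse_le (P := P)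
  rcases h with h | ⟨κ, hκ, hμ, h | ⟨U, hU, hU'⟩ | ⟨r, A, F, hr, hA, hA', hF, h⟩⟩
  · obtain ⟨A, F, hA, hA', hF, h1⟩ :=
      exists_union hd hc (bounded_of_partition (aleph0_lt_fi hc) (isRegular_fi hc) h)
    exact of_union hd hc hle (aleph0_lt_fi hc) (fun μ h2 h3 _ => absurd h3 (not_lt.mpr h2)) hA hA'
      hF.le h1
  · obtain ⟨A, F, hA, hA', hF, h1⟩ := exists_union hd hc h
    exact of_union hd hc hle hκ hμ hA hA' hF.le h1
  · obtain ⟨A, F, hA, hA', hF, h1⟩ := exists_union hd hc (bounded_of_ultrafilter hκ U hU hU')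
    exact of_union hd hc hle hκ hμ hA hA' hF.le h1
  · rcases h with h | ⟨rfl, h2, h⟩
    · exact of_union hd hc hr hκ hμ hA hA' hF h
    · exact of_union hd hc hr hκ hμ hA hA' hF fun n => kBounded_of_seqBounded hd hc hr h2 (h n)

end Pool.Agent.Results.MP_ca1a83_gt.CountableUnions
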