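import Pool.Agent.TKY.ProdFull

/-!
# MP_ca1a83_gt: products of directed posets with supports in an ideal

`P_i` (`i ∈ I`) directed posets with base points `o_i` (not the greatest elements), `𝒥` an ideal of
subsets of `I`; the product with supports in `𝒥` consists of the `p ∈ ∏ P_i` such that the set of
the `i` with `p_i` not below `o_i` is in `𝒥`.  If the answer to Q1 is yes for `𝒥` (ordered by
inclusion) and for all `P_i`, it is yes for this product.
-/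

set_option autoImplicit false

namespace Pool.Agent.Results.MP_ca1a83_gt.Products

open Cardinal Set Pool.Agent.TKY

universe u

/-- `𝒥` is an ideal of subsets of `I` containing the finite sets -/
def IsIdeal {I : Type u} (𝒥 : Set (Set I)) : Prop :=
  (∀ s ∈ 𝒥, ∀ t ⊆ s, t ∈ 𝒥) ∧ (∀ s ∈ 𝒥, ∀ t ∈ 𝒥, s ∪ t ∈ 𝒥) ∧ ∀ s : Set I, s.Finite → s ∈ 𝒥

/-- the support of `p` relative to the base point `o` -/
def supp {I : Type u} {P : I → Type u} [∀ i, PartialOrder (P i)] (o p : ∀ i, P i) : Set I :=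
  {i | ¬ p i ≤ o i}

/-- the product of the `P i` with supports in `𝒥`, ordered coordinatewise -/
abbrev ProdSupp {I : Type u} {P : I → Type u} [∀ i, PartialOrder (P i)] (o : ∀ i, P i)
    (𝒥 : Set (Set I)) : Type u := {p : ∀ i, P i // supp o p ∈ 𝒥}

/-- the answer to Q1 for `P` is yes (or the cofinality of `P` is countable) -/
def Q1 (P : Type u) [PartialOrder P] : Prop := ℵ₀ < cof P → fi P ∈ Sp P

variable {I : Type u} {P : I → Type u} [∀ i, PartialOrder (P i)]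

open Classical in
/-- `q` on `J`, the base point elsewhere -/
noncomputable def ext (o : ∀ i, P i) (J : Set I) (q : ∀ i : J, P i) (i : I) : P i :=
  if h : i ∈ J then q ⟨i, h⟩ else o i

omit [∀ i, PartialOrder (P i)] in
lemma ext_of_mem (o : ∀ i, P i) (J : Set I) (q : ∀ i : J, P i) (i : J) : ext o J q i = q i := by
  unfold ext
  rw [dif_pos i.2]

omit [∀ i, PartialOrder (P i)] in
lemma ext_of_not_mem (o : ∀ i, P i) (J : Set I) (q : ∀ i : J, P i) {i : I} (h : i ∉ J) :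
    ext o J q i = o i := by
  unfold ext
  rw [dif_neg h]

lemma supp_ext (o : ∀ i, P i) (J : Set I) (q : ∀ i : J, P i) : supp o (ext o J q) ⊆ J := by
  intro i hi
  by_contra h
  exact hi (ext_of_not_mem o J q h).le

theorem result (I : Type u) (P : I → Type u) [∀ i, PartialOrder (P i)]
    (hd : ∀ i, DirectedPoset (P i)) (o : ∀ i, P i) (ho : ∀ i, ∃ x, ¬ x ≤ o i) (𝒥 : Set (Set I))
    (h𝒥 : IsIdeal 𝒥) (hP : ∀ i, Q1 (P i)) (hI : Q1 𝒥) : Q1 (ProdSupp o 𝒥) := by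
  intro hc
  obtain ⟨h1, h2, h3⟩ := h𝒥
  -- restriction to a set `J ∈ 𝒥`
  have hrm : ∀ J : Set I, ∀ p q : ProdSupp o 𝒥, p ≤ q →
      (fun i : J => p.1 i) ≤ (fun i : J => q.1 i) := fun J p q hpq i => hpq i
  have hrs : ∀ J ∈ 𝒥, ∀ q : ∀ i : J, P i, ∃ p : ProdSupp o 𝒥, (fun i : J => p.1 i) = q := by
    intro J hJ q
    exact ⟨⟨ext o J q, h1 J hJ _ (supp_ext o J q)⟩, funext fun i => ext_of_mem o J q i⟩
  -- the supports
  have hsm : ∀ p q : ProdSupp o 𝒥, p ≤ q →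
      (⟨supp o p.1, p.2⟩ : 𝒥) ≤ (⟨supp o q.1, q.2⟩ : 𝒥) := by
    intro p q hpq i hi hqi
    exact hi ((hpq i).trans hqi)
  have hss : ∀ J : 𝒥, ∃ p : ProdSupp o 𝒥, (⟨supp o p.1, p.2⟩ : 𝒥) = J := by
    intro J
    choose x hx using ho
    have hJ : supp o (ext o J.1 fun i => x i) = J.1 := by
      refine subset_antisymm (supp_ext _ _ _) fun i hi => ?_
      show ¬ ext o J.1 (fun i => x i) i ≤ o i
      rw [ext_of_mem o J.1 (fun i => x i) ⟨i, hi⟩]
      exact hx i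
    exact ⟨⟨ext o J.1 fun i => x i, by rw [hJ]; exact J.2⟩, Subtype.ext hJ⟩
  by_cases hcase : Fine 𝒥 (fi (ProdSupp o 𝒥))
  · obtain ⟨A, hA, hA'⟩ := exists_not_dominated hc
    obtain ⟨D, hD, hDd⟩ := hcase ((fun p : ProdSupp o 𝒥 => (⟨supp o p.1, p.2⟩ : 𝒥)) '' A)
      (mk_image_le.trans hA)
    -- one piece is not dominated
    obtain ⟨J, hJD, hJ⟩ : ∃ J ∈ D, ¬ ∃ B : Set (ProdSupp o 𝒥), B.Countable ∧
        DominatedBy {p | p ∈ A ∧ supp o p.1 ⊆ J.1} B := by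
      by_contra hn
      push Not at hn
      choose! B hB hBd using hn
      refine hA' ⟨⋃ J ∈ D, B J, hD.biUnion fun J hJ => hB J hJ, fun a ha => ?_⟩
      obtain ⟨J, hJD, hJ⟩ := hDd _ ⟨a, ha, rfl⟩
      obtain ⟨b, hb, hab⟩ := hBd J hJD a ⟨ha, hJ⟩
      exact ⟨b, mem_biUnion hJD hb, hab⟩
    have hnot : ¬ Fine (∀ i : J.1, P i) (fi (ProdSupp o 𝒥)) := by
      intro hf
      obtain ⟨B, hB, hBd⟩ := hf ((fun p : ProdSupp o 𝒥 => fun i : J.1 => p.1 i) ''
        {p | p ∈ A ∧ supp o p.1 ⊆ J.1}) (mk_image_le.trans ((mk_le_mk_of_subset fun p hp => hp.1).trans hA))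
      refine hJ ⟨(fun q : ∀ i : J.1, P i => (⟨ext o J.1 q, h1 J.1 J.2 _ (supp_ext o J.1 q)⟩ :
        ProdSupp o 𝒥)) '' B, hB.image _, fun a ha => ?_⟩
      obtain ⟨b, hb, hab⟩ := hBd _ ⟨a, ha, rfl⟩
      refine ⟨_, ⟨b, hb, rfl⟩, fun i => ?_⟩
      show a.1 i ≤ ext o J.1 b i
      by_cases hi : i ∈ J.1
      · rw [ext_of_mem o J.1 b ⟨i, hi⟩]
        exact hab ⟨i, hi⟩
      · rw [ext_of_not_mem o J.1 b hi]
        by_contra h
        exact hi (ha.2 h)
    have h4 : fi (∀ i : J.1, P i) = fi (ProdSupp o 𝒥) :=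
      fi_map (fun p : ProdSupp o 𝒥 => fun i : J.1 => p.1 i) (hrm J.1) (hrs J.1 J.2) hnot
    have h5 := prod_mem_Sp J.1 (fun i => P i) (fun i => hd i) (fun i => hP i)
      (cof_of_not_fine hnot)
    rw [h4] at h5
    exact sp_map (fun p : ProdSupp o 𝒥 => fun i : J.1 => p.1 i) (hrm J.1) (hrs J.1 J.2) h5
  · have h4 : fi 𝒥 = fi (ProdSupp o 𝒥) :=
      fi_map (fun p : ProdSupp o 𝒥 => (⟨supp o p.1, p.2⟩ : 𝒥)) hsm hss hcase
    have h5 := hI (cof_of_not_fine hcase)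
    rw [h4] at h5
    exact sp_map (fun p : ProdSupp o 𝒥 => (⟨supp o p.1, p.2⟩ : 𝒥)) hsm hss h5

end Pool.Agent.Results.MP_ca1a83_gt.Products
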