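import Mathlib

/-!
# MP_ca1a83_gt: the least character is at most `2 ^ fi(P)`

For every directed poset `P` of uncountable cofinality some non-metrizable Hausdorff topological
group with a `P`-base has character between `fi(P)` and `2 ^ fi(P)`.
-/

set_option autoImplicit false

namespace Pool.Agent.Results.MP_ca1a83_gt.UpperBound

open Cardinal Topology Set

universe u

section defs

variable (P : Type u) [PartialOrder P]

/-- `A` is dominated by `B`: every element of `A` lies below some element of `B` -/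
def DominatedBy {P : Type u} [PartialOrder P] (A B : Set P) : Prop := ∀ a ∈ A, ∃ b ∈ B, a ≤ b

/-- the cofinality: the least size of a subset dominating `P` -/
noncomputable def cof : Cardinal.{u} := sInf {κ | ∃ B : Set P, DominatedBy univ B ∧ #B = κ}

/-- `P` is `κ`-fine: every subset of size at most `κ` is dominated by a countable subset -/
def Fine (κ : Cardinal.{u}) : Prop :=
  ∀ A : Set P, #A ≤ κ → ∃ B : Set P, B.Countable ∧ DominatedBy A B

/-- the fineness index: the least cardinal `κ` such that `P` is not `κ`-fine -/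
noncomputable def fi : Cardinal.{u} := sInf {κ | ¬ Fine P κ}

/-- `P` is directed -/
def DirectedPoset : Prop := ∀ a b : P, ∃ c : P, a ≤ c ∧ b ≤ c

variable (G : Type u) [Group G] [TopologicalSpace G]

/-- `B` is a base at the identity (a base of the filter of neighbourhoods) -/
def IsBaseAtOne {G : Type u} [Group G] [TopologicalSpace G] (B : Set (Set G)) : Prop :=
  (∀ V ∈ B, V ∈ 𝓝 (1 : G)) ∧ ∀ W ∈ 𝓝 (1 : G), ∃ V ∈ B, V ⊆ W

/-- the group has a `P`-base -/
def HasPBase : Prop :=
  ∃ U : P → Set G, IsBaseAtOne (range U) ∧ ∀ p q : P, p ≤ q → U q ⊆ U p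

/-- the character: the least size of a base at the identity -/
noncomputable def character : Cardinal.{u} := sInf {κ | ∃ B : Set (Set G), IsBaseAtOne B ∧ #B = κ}

/-- the set of the characters of the non-metrizable (Hausdorff) topological groups with a
`P`-base -/
def Sp : Set Cardinal.{u} :=
  {κ | ∃ (G : Type u) (_ : Group G) (_ : TopologicalSpace G), IsTopologicalGroup G ∧ T2Space G ∧
    ¬ TopologicalSpace.MetrizableSpace G ∧ HasPBase P G ∧ character G = κ}

end defs

/-! ### The construction -/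

/-- the group of all functions from a set to `{1, -1}` -/
def GG (A : Type u) : Type u := A → ℤˣ

instance (A : Type u) : CommGroup (GG A) := inferInstanceAs (CommGroup (A → ℤˣ))

/-- the functions which are `1` on `S` -/
def VV {A : Type u} (S : Set A) : Set (GG A) := {f | ∀ a ∈ S, f a = 1}

lemma VV_anti {A : Type u} {S T : Set A} (h : S ⊆ T) : VV T ⊆ VV S :=
  fun _ hf a ha => hf a (h ha)

lemma subset_of_VV {A : Type u} {S T : Set A} (h : VV T ⊆ VV S) : S ⊆ T := by
  classical
  intro a ha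
  by_contra hT
  have hf : (fun b => if b = a then (-1 : ℤˣ) else 1 : GG A) ∈ VV T := by
    intro b hb
    have : b ≠ a := by
      rintro rfl
      exact hT hb
    exact if_neg this
  have := h hf a ha
  rw [if_pos rfl] at this
  exact absurd this (by decide)

variable {P : Type u} [PartialOrder P]

/-- the trace of `p` on `A` -/
def tr (A : Set P) (p : P) : Set A := {a | (a : P) ≤ p}

lemma tr_mono (A : Set P) {p q : P} (h : p ≤ q) : tr A p ⊆ tr A q :=
  fun _ ha => le_trans ha h

/-- the filter basis -/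
@[instance_reducible]
def basis (hd : DirectedPoset P) (hne : Nonempty P) (A : Set P) : GroupFilterBasis (GG A) :=
  groupFilterBasisOfComm (range fun p : P => VV (tr A p)) (range_nonempty _)
    (by
      rintro _ _ ⟨p, rfl⟩ ⟨q, rfl⟩
      obtain ⟨r, hp, hq⟩ := hd p q
      exact ⟨_, ⟨r, rfl⟩, subset_inter (VV_anti (tr_mono A hp)) (VV_anti (tr_mono A hq))⟩)
    (by
      rintro _ ⟨p, rfl⟩ a _
      rfl)
    (by
      rintro _ ⟨p, rfl⟩
      refine ⟨_, ⟨p, rfl⟩, ?_⟩
      rintro _ ⟨f, hf, g, hg, rfl⟩ a ha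
      show f a * g a = 1
      rw [hf a ha, hg a ha, mul_one])
    (by
      rintro _ ⟨p, rfl⟩
      refine ⟨_, ⟨p, rfl⟩, ?_⟩
      intro f hf a ha
      show (f a)⁻¹ = 1
      rw [hf a ha, inv_one])

lemma character_le {G : Type u} [Group G] [TopologicalSpace G] {B : Set (Set G)}
    (h : IsBaseAtOne B) : character G ≤ #B := csInf_le' ⟨B, h, rfl⟩

lemma exists_character (G : Type u) [Group G] [TopologicalSpace G] :
    ∃ B : Set (Set G), IsBaseAtOne B ∧ #B = character G := by
  have : {κ : Cardinal.{u} | ∃ B : Set (Set G), IsBaseAtOne B ∧ #B = κ}.Nonempty :=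
    ⟨_, (𝓝 (1 : G)).sets, ⟨fun V hV => hV, fun W hW => ⟨W, hW, subset_rfl⟩⟩, rfl⟩
  exact csInf_mem this

lemma fine_of_lt {κ : Cardinal.{u}} (h : κ < fi P) : Fine P κ := by
  by_contra hf
  exact absurd (csInf_le' (s := {κ | ¬ Fine P κ}) hf) (not_le.mpr h)

lemma not_fine (h : ℵ₀ < cof P) : ¬ Fine P (fi P) := by
  have hne : {κ : Cardinal.{u} | ¬ Fine P κ}.Nonempty := by
    refine ⟨#P, fun hf => ?_⟩
    obtain ⟨B, hB, hd⟩ := hf univ (le_of_eq mk_univ)
    have h1 : cof P ≤ #B := csInf_le' ⟨B, hd, rfl⟩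
    exact absurd (h1.trans (le_aleph0_iff_set_countable.mpr hB)) (not_le.mpr h)
  exact csInf_mem hne

lemma fine_aleph0 : Fine P ℵ₀ :=
  fun A hA => ⟨A, le_aleph0_iff_set_countable.mp hA, fun a ha => ⟨a, ha, le_rfl⟩⟩

theorem result (P : Type u) [PartialOrder P] (hd : DirectedPoset P) (h : ℵ₀ < cof P) :
    ∃ κ ∈ Sp P, fi P ≤ κ ∧ κ ≤ 2 ^ fi P := by
  have hne : Nonempty P := by
    by_contra hn
    rw [not_nonempty_iff] at hn
    have : cof P ≤ #(∅ : Set P) := csInf_le' ⟨∅, fun a _ => hn.elim a, rfl⟩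
    rw [mk_eq_zero (∅ : Set P)] at this
    exact absurd (this.trans (aleph0_pos.le)) (not_le.mpr h)
  obtain ⟨A, hA, hA'⟩ : ∃ A : Set P, #A ≤ fi P ∧ ¬ ∃ B : Set P, B.Countable ∧ DominatedBy A B := by
    have := not_fine h
    unfold Fine at this
    push Not at this
    obtain ⟨A, h1, h2⟩ := this
    exact ⟨A, h1, fun ⟨B, h3, h4⟩ => h2 B h3 h4⟩
  let τ : TopologicalSpace (GG A) := (basis hd hne A).topology
  have hG : IsTopologicalGroup (GG A) := (basis hd hne A).isTopologicalGroup
  have hb : (𝓝 (1 : GG A)).HasBasis (fun V : Set (GG A) => V ∈ basis hd hne A) id :=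
    (basis hd hne A).nhds_one_hasBasis
  have hbase : IsBaseAtOne (range fun p : P => VV (tr A p)) := by
    refine ⟨fun V hV => hb.mem_of_mem hV, fun W hW => ?_⟩
    obtain ⟨V, hV, hVW⟩ := hb.mem_iff.mp hW
    exact ⟨V, hV, hVW⟩
  have hT2 : T2Space (GG A) := by
    refine IsTopologicalGroup.t2Space_of_one_sep fun f hf => ?_
    obtain ⟨a, ha⟩ : ∃ a : A, f a ≠ 1 := by
      by_contra hc
      push Not at hc
      exact hf (funext hc)
    exact ⟨VV (tr A a), hbase.1 _ ⟨_, rfl⟩, fun h1 => ha (h1 a (le_refl (a : P)))⟩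
  have hlow : fi P ≤ character (GG A) := by
    by_contra hlt
    rw [not_le] at hlt
    obtain ⟨B, hB, hcard⟩ := exists_character (GG A)
    choose p hp using fun V : B => (by
      obtain ⟨W, ⟨p, hp⟩, hW⟩ := hbase.2 V (hB.1 V V.2)
      exact ⟨p, by rw [← hp] at hW; exact hW⟩ : ∃ p : P, VV (tr A p) ⊆ V)
    have hf : Fine P #B := fine_of_lt (by rw [hcard]; exact hlt)
    obtain ⟨C, hC, hC'⟩ := hf (range p) mk_range_le
    refine hA' ⟨C, hC, fun a ha => ?_⟩
    obtain ⟨V, hV, hVa⟩ := hB.2 (VV (tr A a)) (hbase.1 _ ⟨_, rfl⟩)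
    have h1 : (a : P) ≤ p ⟨V, hV⟩ :=
      subset_of_VV ((hp ⟨V, hV⟩).trans hVa) (show (⟨a, ha⟩ : A) ∈ tr A a from le_refl a)
    obtain ⟨c, hc, hc'⟩ := hC' (p ⟨V, hV⟩) ⟨_, rfl⟩
    exact ⟨c, hc, h1.trans hc'⟩
  have hup : character (GG A) ≤ 2 ^ fi P := by
    have h1 : character (GG A) ≤ #(range fun p : P => VV (tr A p)) := character_le hbase
    have h2 : #(range fun p : P => VV (tr A p)) ≤ #(Set A) := by
      have : (range fun p : P => VV (tr A p)) ⊆ range (VV : Set A → Set (GG A)) := by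
        rintro _ ⟨p, rfl⟩
        exact ⟨_, rfl⟩
      exact (mk_le_mk_of_subset this).trans mk_range_le
    rw [mk_set] at h2
    exact h1.trans (h2.trans (power_le_power_left two_ne_zero hA))
  refine ⟨character (GG A), ⟨GG A, inferInstance, τ, hG, hT2, ?_, ?_, rfl⟩, hlow, hup⟩
  · intro hm
    obtain ⟨x, hx⟩ := (𝓝 (1 : GG A)).exists_antitone_basis
    have hB : IsBaseAtOne (range x) := by
      refine ⟨?_, fun W hW => ?_⟩
      · rintro _ ⟨n, rfl⟩
        exact hx.1.mem_of_mem trivial
      · obtain ⟨n, _, hn⟩ := hx.1.mem_iff.mp hW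
        exact ⟨_, ⟨n, rfl⟩, hn⟩
    have h1 : fi P ≤ ℵ₀ := hlow.trans ((character_le hB).trans
      (le_aleph0_iff_set_countable.mpr (countable_range x)))
    refine not_fine h fun A hA => fine_aleph0 A (hA.trans h1)
  · exact ⟨fun p => VV (tr A p), hbase, fun p q hpq => VV_anti (tr_mono A hpq)⟩

end Pool.Agent.Results.MP_ca1a83_gt.UpperBound
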